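import Mathlib

/-!
# MP_1004d8_al, Q1: affine maps of maximal order on groups of small commuting probability

On `G = AGL(1,p)` the affine map `x ↦ g x h`, with `g` a translation and `h` the multiplication by
a primitive root modulo `p`, has order `lcm(p, p-1) = p(p-1) = |G|`, while `cp(G) → 0`.
-/

set_option autoImplicit false

namespace Pool.Agent.Results.MP_1004d8_al.LargeOrderSmallCP

/-- The affine map `x ↦ g α(x)` of the group `G`, as a permutation of `G`. -/
def affineMap {G : Type} [Group G] (g : G) (α : MulAut G) : Equiv.Perm G :=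
  α.toEquiv.trans (Equiv.mulLeft g)

theorem affineMap_apply {G : Type} [Group G] (g : G) (α : MulAut G) (x : G) :
    affineMap g α x = g * α x := rfl

/-- The affine group of the line over `ZMod p`: pairs `(a, b)` standing for `x ↦ a x + b`. -/
@[ext] structure AGL (p : ℕ) where
  a : (ZMod p)ˣ
  b : ZMod p

variable {p : ℕ}

instance : Mul (AGL p) := ⟨fun x y => ⟨x.a * y.a, x.a * y.b + x.b⟩⟩
instance : One (AGL p) := ⟨⟨1, 0⟩⟩
instance : Inv (AGL p) := ⟨fun x => ⟨x.a⁻¹, - (((x.a⁻¹ : (ZMod p)ˣ) : ZMod p) * x.b)⟩⟩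

theorem mul_a (x y : AGL p) : (x * y).a = x.a * y.a := rfl
theorem mul_b (x y : AGL p) : (x * y).b = x.a * y.b + x.b := rfl
theorem one_a : (1 : AGL p).a = 1 := rfl
theorem one_b : (1 : AGL p).b = 0 := rfl
theorem inv_a (x : AGL p) : (x⁻¹).a = x.a⁻¹ := rfl
theorem inv_b (x : AGL p) : (x⁻¹).b = - (((x.a⁻¹ : (ZMod p)ˣ) : ZMod p) * x.b) := rfl

instance : Group (AGL p) := Group.ofLeftAxioms
  (by
    intro x y z
    ext
    · simp only [mul_a, mul_assoc]
    · simp only [mul_a, mul_b, Units.val_mul]; ring)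
  (by
    intro x
    ext
    · simp only [mul_a, one_a, one_mul]
    · simp only [one_a, mul_b, one_b, Units.val_one, one_mul, add_zero])
  (by
    intro x
    ext
    · simp only [mul_a, inv_a, one_a, inv_mul_cancel]
    · simp only [inv_a, mul_b, inv_b, one_b]; ring)

/-- The underlying type of `AGL p`. -/
def equivProd : AGL p ≃ (ZMod p)ˣ × ZMod p where
  toFun x := (x.a, x.b)
  invFun y := ⟨y.1, y.2⟩
  left_inv _ := rfl
  right_inv _ := rfl

instance [NeZero p] : Finite (AGL p) := Finite.of_equiv _ equivProd.symm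

theorem card_AGL [hp : Fact p.Prime] : Nat.card (AGL p) = (p - 1) * p := by
  rw [Nat.card_congr equivProd, Nat.card_prod, Nat.card_eq_fintype_card, ZMod.card_units,
    Nat.card_zmod]

/-- translation -/
def tr : AGL p := ⟨1, 1⟩

theorem tr_pow (n : ℕ) : (tr : AGL p) ^ n = ⟨1, n⟩ := by
  induction n with
  | zero => ext <;> simp [one_a, one_b]
  | succ n ih =>
    rw [pow_succ, ih]
    ext
    · simp [mul_a, tr]
    · simp [mul_b, tr, add_comm]

/-- homothety -/
def dil (u : (ZMod p)ˣ) : AGL p := ⟨u, 0⟩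

theorem dil_pow (u : (ZMod p)ˣ) (n : ℕ) : dil u ^ n = dil (u ^ n) := by
  induction n with
  | zero => ext <;> simp [one_a, one_b, dil]
  | succ n ih =>
    rw [pow_succ, ih]
    ext
    · simp [mul_a, dil, pow_succ]
    · simp [mul_b, dil]

/-- the affine map `x ↦ g x h` -/
def A (g h : AGL p) : Equiv.Perm (AGL p) := affineMap (g * h) (MulAut.conj h⁻¹)

theorem A_apply (g h x : AGL p) : A g h x = g * x * h := by
  unfold A
  rw [affineMap_apply, MulAut.conj_apply]
  group

theorem A_pow (g h x : AGL p) (n : ℕ) : ((A g h) ^ n) x = g ^ n * x * h ^ n := by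
  induction n generalizing x with
  | zero => simp
  | succ n ih =>
    rw [pow_succ, Equiv.Perm.mul_apply, A_apply, ih, pow_succ g, pow_succ' h]
    group

theorem order_A [hp : Fact p.Prime] (u : (ZMod p)ˣ) (hu : orderOf u = p - 1) :
    orderOf (A tr (dil u)) = Nat.card (AGL p) := by
  rw [card_AGL]
  have hcop : Nat.Coprime (p - 1) p := by
    have h := Nat.coprime_self_sub_right (n := p) (m := 1) hp.out.one_lt.le
    have h2 : Nat.Coprime p (p - 1) := by simpa using h
    exact h2.symm
  have h1 : ∀ n : ℕ, (A tr (dil u)) ^ n = 1 ↔ (p - 1) * p ∣ n := by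
    intro n
    constructor
    · intro h
      have h2 := DFunLike.congr_fun h 1
      rw [A_pow, mul_one, tr_pow, dil_pow] at h2
      have h3 : u ^ n = 1 := by
        have := congrArg AGL.a h2
        simpa [mul_a, dil, one_a] using this
      have h4 : (n : ZMod p) = 0 := by
        have := congrArg AGL.b h2
        simpa [mul_b, dil, one_b] using this
      rw [ZMod.natCast_eq_zero_iff] at h4
      have h5 : p - 1 ∣ n := hu ▸ orderOf_dvd_of_pow_eq_one h3
      exact hcop.mul_dvd_of_dvd_of_dvd h5 h4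
    · intro h
      ext x : 1
      rw [A_pow, tr_pow, dil_pow]
      have h3 : u ^ n = 1 := by
        rw [← orderOf_dvd_iff_pow_eq_one, hu]
        exact (Dvd.intro _ rfl).trans h
      have h4 : (n : ZMod p) = 0 := by
        rw [ZMod.natCast_eq_zero_iff]
        exact (Dvd.intro_left _ rfl).trans h
      rw [h3, h4]
      change (1 : AGL p) * x * 1 = x
      simp
  apply Nat.dvd_antisymm
  · exact orderOf_dvd_of_pow_eq_one ((h1 _).2 dvd_rfl)
  · exact (h1 _).1 (pow_orderOf_eq_one _)

theorem comm_iff (x y : AGL p) : Commute x y ↔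
    ((x.a : ZMod p) - 1) * y.b = ((y.a : ZMod p) - 1) * x.b := by
  constructor
  · intro h
    have h2 := congrArg AGL.b h.eq
    rw [mul_b, mul_b] at h2
    linear_combination h2
  · intro h
    apply AGL.ext
    · rw [mul_a, mul_a, mul_comm]
    · rw [mul_b, mul_b]
      linear_combination h

open Classical in
/-- the encoding of commuting pairs -/
noncomputable def enc (z : AGL p × AGL p) :
    ((ZMod p) × (ZMod p) × (ZMod p)) ⊕ ((ZMod p) × (ZMod p) × (ZMod p)) :=
  if z.1.a = 1 then (if z.2.a = 1 then Sum.inr (0, z.1.b, z.2.b)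
    else Sum.inr (z.2.a, z.2.b, 0)) else Sum.inl (z.1.a, z.1.b, z.2.a)

theorem enc_inj [hp : Fact p.Prime] {z w : AGL p × AGL p} (hz : Commute z.1 z.2)
    (hw : Commute w.1 w.2) (h : enc z = enc w) : z = w := by
  obtain ⟨⟨a, b⟩, ⟨c, d⟩⟩ := z
  obtain ⟨⟨a', b'⟩, ⟨c', d'⟩⟩ := w
  rw [comm_iff] at hz hw
  simp only at hz hw
  unfold enc at h
  simp only at h
  have hne : ∀ v : (ZMod p)ˣ, v ≠ 1 → (v : ZMod p) - 1 ≠ 0 := by
    intro v hv h0
    exact hv (Units.ext (by rw [Units.val_one]; exact sub_eq_zero.1 h0))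
  by_cases h1 : a = 1
  · rw [if_pos h1] at h
    by_cases h2 : a' = 1
    · rw [if_pos h2] at h
      subst h1 h2
      simp only [Units.val_one, sub_self, zero_mul] at hz hw
      by_cases h3 : c = 1
      · rw [if_pos h3] at h
        by_cases h4 : c' = 1
        · rw [if_pos h4] at h
          simp only [Sum.inr.injEq, Prod.mk.injEq, true_and] at h
          rw [h3, h4, h.1, h.2]
        · rw [if_neg h4] at h
          simp only [Sum.inr.injEq, Prod.mk.injEq] at h
          exact absurd h.1.symm c'.ne_zero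
      · rw [if_neg h3] at h
        by_cases h4 : c' = 1
        · rw [if_pos h4] at h
          simp only [Sum.inr.injEq, Prod.mk.injEq] at h
          exact absurd h.1 c.ne_zero
        · rw [if_neg h4] at h
          simp only [Sum.inr.injEq, Prod.mk.injEq, and_true] at h
          have h5 : b = 0 := by
            rcases mul_eq_zero.1 hz.symm with h6 | h6
            · exact absurd h6 (hne c h3)
            · exact h6
          have h6 : b' = 0 := by
            rcases mul_eq_zero.1 hw.symm with h6 | h6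
            · exact absurd h6 (hne c' h4)
            · exact h6
          rw [h5, h6, Units.ext h.1, h.2]
    · rw [if_neg h2] at h
      split_ifs at h
  · rw [if_neg h1] at h
    by_cases h2 : a' = 1
    · rw [if_pos h2] at h
      split_ifs at h
    · rw [if_neg h2] at h
      simp only [Sum.inl.injEq, Prod.mk.injEq] at h
      obtain ⟨h3, h4, h5⟩ := h
      have h3' := Units.ext h3
      have h5' := Units.ext h5
      subst h3' h4 h5'
      have h6 : d = d' := mul_left_cancel₀ (hne a h1) (hz.trans hw.symm)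
      rw [h6]

theorem commProb_le [hp : Fact p.Prime] : commProb (AGL p) ≤ 8 / p := by
  classical
  have hp2 : 2 ≤ p := hp.out.two_le
  have h1 : Nat.card {z : AGL p × AGL p // Commute z.1 z.2} ≤ 2 * p ^ 3 := by
    have h2 : Function.Injective (fun z : {z : AGL p × AGL p // Commute z.1 z.2} => enc z.1) :=
      fun z w h => Subtype.ext (enc_inj z.2 w.2 h)
    have h3 := Nat.card_le_card_of_injective _ h2
    rw [Nat.card_sum, Nat.card_prod, Nat.card_prod, Nat.card_zmod] at h3
    calc _ ≤ _ := h3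
      _ = 2 * p ^ 3 := by ring
  rw [commProb_def, card_AGL]
  have hp0 : (2 : ℚ) ≤ p := by exact_mod_cast hp2
  have hsub : ((p - 1 : ℕ) : ℚ) = p - 1 := by
    rw [Nat.cast_sub (by omega)]; simp
  rw [div_le_div_iff₀ (by
    rw [Nat.cast_mul, hsub]
    have : (0 : ℚ) < p - 1 := by linarith
    positivity) (by linarith)]
  rw [Nat.cast_mul, hsub]
  have h4 : (Nat.card {z : AGL p × AGL p // Commute z.1 z.2} : ℚ) ≤ 2 * p ^ 3 := by
    exact_mod_cast h1
  calc (Nat.card {z : AGL p × AGL p // Commute z.1 z.2} : ℚ) * p ≤ 2 * p ^ 3 * p := by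
        apply mul_le_mul_of_nonneg_right h4 (by linarith)
    _ ≤ 8 * ((p - 1) * p) ^ 2 := by nlinarith [mul_nonneg (sq_nonneg (p : ℚ)) (mul_nonneg
        (by linarith : (0 : ℚ) ≤ p - 2) (by linarith : (0 : ℚ) ≤ 3 * p - 2))]

/-- **Negative answer to Q1.**  For every `ε > 0` there is a finite group `G` with an affine map
`A` of order `|G|` (so `ord(A) ≥ ρ|G|` for every `ρ ≤ 1`) and `cp(G) < ε`. -/
theorem result : ∀ ε : ℝ, 0 < ε → ∃ (G : Type) (_ : Group G) (_ : Finite G) (g : G)
    (α : MulAut G), orderOf (affineMap g α) = Nat.card G ∧ (commProb G : ℝ) < ε := by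
  intro ε hε
  obtain ⟨n, hn⟩ := exists_nat_gt (8 / ε)
  obtain ⟨p, hp1, hp2⟩ := Nat.exists_infinite_primes n
  have : Fact p.Prime := ⟨hp2⟩
  obtain ⟨u, hu⟩ := IsCyclic.exists_generator (α := (ZMod p)ˣ)
  have hu2 : orderOf u = p - 1 := by
    rw [orderOf_eq_card_of_forall_mem_zpowers hu, Nat.card_eq_fintype_card, ZMod.card_units]
  refine ⟨AGL p, inferInstance, inferInstance, tr * dil u, MulAut.conj (dil u)⁻¹,
    order_A u hu2, ?_⟩
  have h1 : (commProb (AGL p) : ℝ) ≤ 8 / p := by
    have h := (Rat.cast_le (K := ℝ)).2 (commProb_le (p := p))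
    push_cast at h
    exact h
  have hpn : (n : ℝ) ≤ p := by exact_mod_cast hp1
  have hp0 : (0 : ℝ) < p := by exact_mod_cast hp2.pos
  refine lt_of_le_of_lt h1 ?_
  rw [div_lt_iff₀ hp0]
  rw [div_lt_iff₀ hε] at hn
  nlinarith

end Pool.Agent.Results.MP_1004d8_al.LargeOrderSmallCP
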